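import Pool.Agent.H46.Tn.H
set_option autoImplicit false
open Pool.Agent.H46.Tn Filter

namespace Pool.Agent.Results.MP_ac14a7_nt.Counter

/-- There is a real S-number `ξ` with `t(ξ) < t(ξ^2)` and `t^*(ξ) < t^*(ξ^2)`. -/
theorem result : ∃ ξ : ℝ, Transcendental ℚ ξ ∧ limsup (fun n : ℕ => wE n ξ / n) atTop < ⊤ ∧
    limsup (fun n : ℕ => (wE n ξ + 1) / (n + 1)) atTop <
      limsup (fun n : ℕ => (wE n (ξ ^ 2) + 1) / (n + 1)) atTop ∧
    limsup (fun n : ℕ => (wsE n ξ + 1) / (n + 1)) atTop <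
      limsup (fun n : ℕ => (wsE n (ξ ^ 2) + 1) / (n + 1)) atTop := by
  obtain ⟨ξ, U, L⟩ := sqr
  have a := lsup_le (f := (wE · ξ)) (c := 65536) (by norm_num) 1 fun n h => by
    exact_mod_cast (U n h).1.wE.1
  have b := lsup_le (f := (wsE · ξ)) (c := 65536) (by norm_num) 1 fun n h => by
    exact_mod_cast (U n h).1.wE.2
  have c := le_lsup (f := (wE · (ξ ^ 2))) (by norm_num) fun K =>
    (L K).2.imp fun _ h => ⟨h.1, le_wE h.2.1⟩
  have d := le_lsup (f := (wsE · (ξ ^ 2))) (by norm_num) fun K =>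
    (L K).2.imp fun _ h => ⟨h.1, le_wsE h.2.2⟩
  have e : ((65536 : ℝ) : EReal) < (90000 : ℝ) := EReal.coe_lt_coe (by norm_num)
  exact ⟨ξ, trQ fun N h => ⟨_, (U N h).1⟩, a.1.trans_lt (EReal.coe_lt_top _),
    (a.2.trans_lt e).trans_le c.2, (b.2.trans_lt e).trans_le d.2⟩

end Pool.Agent.Results.MP_ac14a7_nt.Counter
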